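import Pool.Agent.P8H71.SK.Stm
import Pool.Agent.H463R3.PSLn

/-! Project SK (helper71), package GEN (helper45): a symmetric subadditive function on `SL(d, ℝ)`,
continuous at `1`, which vanishes on one root subgroup vanishes everywhere. -/

set_option autoImplicit false

open MeasureTheory Set Filter Topology Matrix Matrix.SpecialLinearGroup
open scoped commutatorElement

namespace Pool.Agent.P8H45.SK

open Pool.Agent.P8H71.SK

section group

variable {G : Type} [Group G] [TopologicalSpace G] {E : G → ℝ}

theorem E_one (hE : Len E) : E 1 = 0 := by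
  have h1 : Tendsto E (pure 1) (𝓝 0) := hE.cont.mono_left (pure_le_nhds 1)
  have h2 : Tendsto E (pure 1) (𝓝 (E 1)) := tendsto_pure_nhds E 1
  exact tendsto_nhds_unique h2 h1

theorem E_mul0 (hE : Len E) {g h : G} (hg : E g = 0) (hh : E h = 0) : E (g * h) = 0 :=
  le_antisymm (by linarith [hE.mul g h]) (hE.nonneg _)

theorem E_inv0 (hE : Len E) {g : G} (hg : E g = 0) : E g⁻¹ = 0 :=
  le_antisymm (by linarith [hE.inv g]) (hE.nonneg _)

theorem E_conj (hE : Len E) {a : G} (ha : E a = 0) (g : G) : E (a * g * a⁻¹) ≤ E g := by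
  have h1 := hE.mul (a * g) a⁻¹
  have h2 := hE.mul a g
  have h3 := E_inv0 hE ha
  linarith

theorem E_conj' (hE : Len E) {a : G} (ha : E a = 0) (g : G) : E (a⁻¹ * g * a) ≤ E g := by
  have h1 := hE.mul (a⁻¹ * g) a
  have h2 := hE.mul a⁻¹ g
  have h3 := E_inv0 hE ha
  linarith

end group

theorem contr {f : ℝ → ℝ} (h0 : ∀ t, 0 ≤ f t) (hf : Tendsto f (𝓝 0) (𝓝 0)) {c : ℝ} (hc0 : 0 ≤ c)
    (hc1 : c < 1) (hc : ∀ t, f t ≤ f (c * t)) (t : ℝ) : f t = 0 := by
  have h1 : ∀ n : ℕ, f t ≤ f (c ^ n * t) := by
    intro n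
    induction n with
    | zero => simp
    | succ n ih =>
      refine ih.trans ((hc _).trans (le_of_eq ?_))
      rw [pow_succ]
      ring_nf
  have h2 : Tendsto (fun n : ℕ => c ^ n * t) atTop (𝓝 0) := by
    have := (tendsto_pow_atTop_nhds_zero_of_lt_one hc0 hc1).mul_const t
    simpa using this
  have h3 := hf.comp h2
  exact le_antisymm (ge_of_tendsto' h3 h1) (h0 t)

variable {d : ℕ}

theorem el_val {i j : Fin d} (h : i ≠ j) (t : ℝ) :
    (el i j h t).1 = (1 : Matrix (Fin d) (Fin d) ℝ) + single i j t := rfl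

theorem el_cont {i j : Fin d} (h : i ≠ j) : Tendsto (fun t => el i j h t) (𝓝 0) (𝓝 1) := by
  have hc : Continuous (fun t : ℝ => el i j h t) := by
    refine Continuous.subtype_mk (f := fun t : ℝ => Matrix.transvection i j t) ?_ _
    refine continuous_matrix fun k l => ?_
    unfold Matrix.transvection
    simp only [Matrix.add_apply, Matrix.single_apply]
    split_ifs <;> fun_prop
  have h0 : el i j h 0 = 1 := by
    apply Subtype.ext
    rw [el_val, single_zero, add_zero]
    rfl
  have := hc.tendsto 0
  rwa [h0] at this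

theorem el_neg {i j : Fin d} (h : i ≠ j) (t : ℝ) : el i j h (-t) = (el i j h t)⁻¹ :=
  (transvection_inv h t).symm

/-- the diagonal matrix as a product -/
theorem dec {i j : Fin d} (h : i ≠ j) (u : ℝ) (hu : u ≠ 0) :
    el i j h u * el j i h.symm (1 / u) * el i j h (-u / 2) * el j i h.symm (-2 / u) =
      diag2n h (2 : ℝ) two_ne_zero := by
  apply Subtype.ext
  have hD : (diag2n h (2 : ℝ) two_ne_zero).1 =
      (1 : Matrix (Fin d) (Fin d) ℝ) + single i i 1 + single j j (-1 / 2) := by
    rw [diag2n_coe]
    ext k l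
    by_cases hkl : k = l
    · subst hkl
      by_cases hki : k = i
      · subst hki
        simp [h.symm]
        norm_num
      · by_cases hkj : k = j
        · subst hkj
          simp [h, h.symm]
          norm_num
        · simp [hki, hkj, Ne.symm hki, Ne.symm hkj]
    · have h1 : ¬ (i = k ∧ i = l) := fun h => hkl (h.1.symm.trans h.2)
      have h2 : ¬ (j = k ∧ j = l) := fun h => hkl (h.1.symm.trans h.2)
      simp [hkl, h1, h2]
  rw [hD]
  simp only [coe_mul, el_val]
  have e1 : ∀ x y : ℝ, single i j x * single j i y = single i i (x * y) := fun x y => by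
    rw [single_mul_single_same]
  have e2 : ∀ x y : ℝ, single j i x * single i j y = single j j (x * y) := fun x y => by
    rw [single_mul_single_same]
  have e3 : ∀ x y : ℝ, single i j x * single i j y = 0 := fun x y => by
    rw [single_mul_single_of_ne _ _ _ _ h.symm]
  have e4 : ∀ x y : ℝ, single j i x * single j i y = 0 := fun x y => by
    rw [single_mul_single_of_ne _ _ _ _ h]
  have e5 : ∀ x y : ℝ, single i i x * single i j y = single i j (x * y) := fun x y => by
    rw [single_mul_single_same]
  have e6 : ∀ x y : ℝ, single i i x * single j i y = 0 := fun x y => by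
    rw [single_mul_single_of_ne _ _ _ _ h]
  have e7 : ∀ x y : ℝ, single j j x * single j i y = single j i (x * y) := fun x y => by
    rw [single_mul_single_same]
  have e8 : ∀ x y : ℝ, single j j x * single i j y = 0 := fun x y => by
    rw [single_mul_single_of_ne _ _ _ _ h.symm]
  simp only [mul_add, add_mul, one_mul, mul_one, e1, e2, e3, e4, e5, e6, e7, e8]
  ext k l
  simp only [Matrix.add_apply, Matrix.single_apply, Matrix.zero_apply]
  by_cases h1 : i = k ∧ i = l
  · obtain ⟨rfl, rfl⟩ := h1
    simp [h.symm]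
    try field_simp
    try ring
  · by_cases h2 : j = k ∧ j = l
    · obtain ⟨rfl, rfl⟩ := h2
      simp [h]
      try field_simp
      try ring
    · by_cases h3 : i = k ∧ j = l
      · obtain ⟨rfl, rfl⟩ := h3
        simp [h, h.symm]
        try field_simp
        try ring
      · by_cases h4 : j = k ∧ i = l
        · obtain ⟨rfl, rfl⟩ := h4
          simp [h, h.symm]
          try field_simp
          try ring
        · simp [h1, h2, h3, h4]

theorem diag0 {E : SLd d → ℝ} (hE : Len E) {i j : Fin d} (h : i ≠ j)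
    (h0 : ∀ t, E (el i j h t) = 0) : E (diag2n h (2 : ℝ) two_ne_zero) = 0 := by
  have h1 : ∀ n : ℕ, E (diag2n h (2 : ℝ) two_ne_zero) ≤
      E (el j i h.symm (1 / ((n : ℝ) + 1))) + E (el j i h.symm (-2 / ((n : ℝ) + 1))) := by
    intro n
    have hn : ((n : ℝ) + 1) ≠ 0 := by positivity
    rw [← dec h _ hn]
    have a1 := hE.mul (el i j h ((n : ℝ) + 1) * el j i h.symm (1 / ((n : ℝ) + 1)) *
      el i j h (-((n : ℝ) + 1) / 2)) (el j i h.symm (-2 / ((n : ℝ) + 1)))
    have a2 := hE.mul (el i j h ((n : ℝ) + 1) * el j i h.symm (1 / ((n : ℝ) + 1)))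
      (el i j h (-((n : ℝ) + 1) / 2))
    have a3 := hE.mul (el i j h ((n : ℝ) + 1)) (el j i h.symm (1 / ((n : ℝ) + 1)))
    have a4 := h0 ((n : ℝ) + 1)
    have a5 := h0 (-((n : ℝ) + 1) / 2)
    linarith
  have ht : Tendsto (fun t => E (el j i h.symm t)) (𝓝 0) (𝓝 0) := hE.cont.comp (el_cont h.symm)
  have t1 : Tendsto (fun n : ℕ => (1 : ℝ) / ((n : ℝ) + 1)) atTop (𝓝 0) :=
    tendsto_one_div_add_atTop_nhds_zero_nat
  have t2 : Tendsto (fun n : ℕ => (-2 : ℝ) / ((n : ℝ) + 1)) atTop (𝓝 0) := by
    have := t1.const_mul (-2)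
    simp only [mul_zero] at this
    refine this.congr fun n => ?_
    ring
  have t3 := (ht.comp t1).add (ht.comp t2)
  rw [add_zero] at t3
  exact le_antisymm (ge_of_tendsto' t3 h1) (hE.nonneg _)

/-- conjugation of a transvection by a diagonal matrix -/
theorem conj_el {a : SLd d} {D : Fin d → ℝ} (ha : a.1 = diagonal D) {p q : Fin d} (h : p ≠ q)
    {s t : ℝ} (hst : s * D q = D p * t) : el p q h s * a = a * el p q h t := by
  apply Subtype.ext
  rw [coe_mul, coe_mul, el_val, el_val]
  have ha' : (a : Matrix (Fin d) (Fin d) ℝ) = diagonal D := ha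
  rw [ha', add_mul, mul_add, one_mul, mul_one]
  congr 1
  ext k l
  rw [mul_diagonal, diagonal_mul, single_apply, single_apply]
  split_ifs with h1
  · rw [← h1.1, ← h1.2, hst]
  · simp

theorem el0 {E : SLd d → ℝ} (hE : Len E) {a : SLd d} {D : Fin d → ℝ} (ha : a.1 = diagonal D)
    (h0 : E a = 0) (hD : ∀ k, 0 < D k) {p q : Fin d} (h : p ≠ q) (hpq : D p ≠ D q) (t : ℝ) :
    E (el p q h t) = 0 := by
  have ht : Tendsto (fun t => E (el p q h t)) (𝓝 0) (𝓝 0) := hE.cont.comp (el_cont h)
  have hp := hD p
  have hq := hD q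
  rcases lt_or_gt_of_ne hpq with hlt | hgt
  · -- `D p < D q`
    refine contr (c := D p / D q) (fun t => hE.nonneg _) ht (by positivity)
      (by rw [div_lt_one hq]; exact hlt) (fun t => ?_) t
    have h1 : el p q h (D p / D q * t) * a = a * el p q h t := conj_el ha h (by field_simp)
    have h2 : el p q h t = a⁻¹ * el p q h (D p / D q * t) * a := by
      rw [mul_assoc, h1, inv_mul_cancel_left]
    calc E (el p q h t) = E (a⁻¹ * el p q h (D p / D q * t) * a) := by rw [← h2]
      _ ≤ _ := E_conj' hE h0 _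
  · refine contr (c := D q / D p) (fun t => hE.nonneg _) ht (by positivity)
      (by rw [div_lt_one hp]; exact hgt) (fun t => ?_) t
    have h1 : el p q h t * a = a * el p q h (D q / D p * t) := conj_el ha h (by field_simp)
    have h2 : el p q h t = a * el p q h (D q / D p * t) * a⁻¹ := by
      rw [← h1, mul_inv_cancel_right]
    calc E (el p q h t) = E (a * el p q h (D q / D p * t) * a⁻¹) := by rw [← h2]
      _ ≤ _ := E_conj hE h0 _

theorem gen : S_GEN := by
  intro d E hE i j h h0 g
  have hN : Nontrivial (Fin d) := ⟨⟨i, j, h⟩⟩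
  have hd := diag0 hE h h0
  have ha := diag2n_coe h (2 : ℝ) two_ne_zero
  have hD : ∀ k : Fin d, 0 < (fun k : Fin d => if k = i then (2 : ℝ) else if k = j then 2⁻¹ else 1) k := by
    intro k
    simp only
    split_ifs <;> norm_num
  have key : ∀ (p q : Fin d) (hpq : p ≠ q) (t : ℝ), E (el p q hpq t) = 0 := by
    intro p q hpq t
    by_cases hc : (p ≠ i ∧ p ≠ j) ∧ (q ≠ i ∧ q ≠ j)
    · -- commutator
      obtain ⟨⟨p1, p2⟩, q1, q2⟩ := hc
      have b1 : ∀ t, E (el p i p1 t) = 0 := fun t => el0 hE ha hd hD p1 (by simp [p1, p2]) t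
      have b2 : ∀ t, E (el i q q1.symm t) = 0 := fun t =>
        el0 hE ha hd hD q1.symm (by simp [q1, q2]) t
      have hcm : ⁅el p i p1 t, el i q q1.symm 1⁆ = el p q hpq t :=
        Pool.Agent.H463R3.PSLn.transvection_commutator hpq p1 q1.symm t
      rw [← hcm, commutatorElement_def]
      exact E_mul0 hE (E_mul0 hE (E_mul0 hE (b1 _) (b2 _)) (E_inv0 hE (b1 _))) (E_inv0 hE (b2 _))
    · refine el0 hE ha hd hD hpq ?_ t
      intro heq
      apply hc
      by_cases p1 : p = i
      · subst p1
        rw [if_pos rfl, if_neg hpq.symm] at heq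
        split_ifs at heq <;> norm_num at heq
      · rw [if_neg p1] at heq
        by_cases p2 : p = j
        · subst p2
          rw [if_pos rfl] at heq
          by_cases q1 : q = i
          · rw [if_pos q1] at heq
            norm_num at heq
          · rw [if_neg q1, if_neg hpq.symm] at heq
            norm_num at heq
        · rw [if_neg p2] at heq
          refine ⟨⟨p1, p2⟩, ?_, ?_⟩
          · intro q1
            rw [if_pos q1] at heq
            norm_num at heq
          · intro q2
            have q1 : q ≠ i := by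
              intro q1
              exact h (q1.symm.trans q2)
            rw [if_neg q1, if_pos q2] at heq
            norm_num at heq
  exact Pool.Agent.H463R3.PSLn.transvection_induction (P := fun g : SLd d => E g = 0)
    (fun p q hpq t => key p q hpq t) (fun A B hA hB => E_mul0 hE hA hB) g

end Pool.Agent.P8H45.SK
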